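import Mathlib
import Pool.Agent.R161.GR.Defs
import Pool.Agent.R161.GR.Asm
import Pool.Agent.R246.GF.Box
import Pool.Agent.R246.GF.Dens
import Pool.Agent.R560.GR.Van
import Pool.Agent.R748.GR.Cut
import Pool.Agent.R748.GR.Tay
import Pool.Agent.R619.GR.Ord
import Pool.Agent.R619.GR.Hom
import Pool.Agent.R193.GR.Ext
import Pool.Agent.R198.GR.HW

/-!
# MP_57d9fd_an, Q1: the answer is YES

A nonzero generalized function on the real Grassmannian `Gr_k(ℝⁿ)`, `1 ≤ k < n`, with finite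
support has a Fourier support of positive lower density.
-/

open scoped ContDiff Matrix Matrix.Norms.Elementwise
open Filter

namespace Pool.Agent.Results.MP_57d9fd_an.FourierSupport

/-- real `n × n` matrices (with the sup norm of the entries) -/
abbrev Mt (n : ℕ) := Matrix (Fin n) (Fin n) ℝ

/-- The real Grassmannian `Gr_k(ℝⁿ)`: a `k`-dimensional subspace is identified with the orthogonal
projection onto it. -/
def Gr (n k : ℕ) : Set (Mt n) := {P | P * P = P ∧ Pᵀ = P ∧ P.rank = k}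

/-- smoothness of a complex function of a real matrix -/
def Smooth {n : ℕ} (H : Mt n → ℂ) : Prop := ContDiff ℝ ∞ H

/-- The algebra `C^∞(Gr_k(ℝⁿ))`, with complex values: the restrictions to the Grassmannian of the
smooth functions of a real matrix. -/
def Sm (n k : ℕ) : Subalgebra ℂ (Gr n k → ℂ) where
  carrier := {h | ∃ H : Mt n → ℂ, Smooth H ∧ ∀ P : Gr n k, h P = H P}
  mul_mem' := by
    rintro a b ⟨A, hA, ha⟩ ⟨B, hB, hb⟩
    exact ⟨fun P => A P * B P, ContDiff.mul hA hB, fun P => by rw [Pi.mul_apply, ha, hb]⟩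
  add_mem' := by
    rintro a b ⟨A, hA, ha⟩ ⟨B, hB, hb⟩
    exact ⟨fun P => A P + B P, ContDiff.add hA hB, fun P => by rw [Pi.add_apply, ha, hb]⟩
  algebraMap_mem' := fun r => ⟨fun _ => r, contDiff_const, fun _ => rfl⟩

/-- the elements of `C^∞(Gr_k(ℝⁿ))`: test functions -/
def SmT (n k : ℕ) : Type := Sm n k

noncomputable instance (n k : ℕ) : AddCommGroup (SmT n k) :=
  Ring.toAddCommGroup (R := Sm n k)

noncomputable instance (n k : ℕ) : Module ℂ (SmT n k) :=
  Algebra.toModule (A := Sm n k)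

/-- the value of a test function at a point -/
def SmT.at {n k : ℕ} (h : SmT n k) (P : Gr n k) : ℂ := h.1 P

/-- restriction of a smooth function of a matrix to the Grassmannian -/
def res {n : ℕ} (k : ℕ) (H : Mt n → ℂ) (hH : Smooth H) : SmT n k :=
  ⟨fun P => H P, H, hH, fun _ => rfl⟩

/-- the norm of the `j`-th derivative of `H` at `P` -/
noncomputable def dnorm {n : ℕ} (j : ℕ) (H : Mt n → ℂ) (P : Mt n) : ℝ := ‖iteratedFDeriv ℝ j H P‖

/-- Continuity of a linear functional on `C^∞(Gr)` (with its usual Fréchet topology, the quotient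
topology of `C^∞` of the matrix space): `T` is a generalized function. -/
def IsCts {n k : ℕ} (T : SmT n k →ₗ[ℂ] ℂ) : Prop :=
  ∃ K : Set (Mt n), IsCompact K ∧ ∃ N : ℕ, ∃ C : ℝ,
    ∀ (H : Mt n → ℂ) (hH : Smooth H) (B : ℝ),
      (∀ j ≤ N, ∀ P ∈ K, dnorm j H P ≤ B) → ‖T (res k H hH)‖ ≤ C * B

/-- The support of `T` is contained in `S`: `T` kills the test functions vanishing near `S`. -/
def SuppIn {n k : ℕ} (T : SmT n k →ₗ[ℂ] ℂ) (S : Set (Gr n k)) : Prop :=
  ∀ h : SmT n k, (∃ U : Set (Gr n k), IsOpen U ∧ S ⊆ U ∧ ∀ P ∈ U, h.at P = 0) → T h = 0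

/-- `x_1, y_1, x_2, y_2, …` is an orthonormal family in `ℝⁿ`. -/
def IsFrame {r n : ℕ} (x y : Fin r → Fin n → ℝ) : Prop :=
  (∀ a b, ∑ p, x a p * x b p = if a = b then 1 else 0) ∧
  (∀ a b, ∑ p, y a p * y b p = if a = b then 1 else 0) ∧
  (∀ a b, ∑ p, x a p * y b p = 0)

/-- the matrix with columns `z_a = x_a + i y_a` -/
noncomputable def Zm {r n : ℕ} (x y : Fin r → Fin n → ℝ) : Matrix (Fin n) (Fin r) ℂ :=
  Matrix.of fun p a => (x a p : ℂ) + Complex.I * (y a p : ℂ)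

/-- `κ = min(k, n-k)` -/
abbrev kap (n k : ℕ) : ℕ := min k (n - k)

/-- The index set `Λ_κ`: weakly decreasing sequences of `κ` even natural numbers. -/
def Lam (κ : ℕ) : Set (Fin κ → ℕ) := {l | Antitone l ∧ ∀ a, Even (l a)}

/-- extension of a sequence by zeros -/
def ex {κ : ℕ} (r : ℕ) (l : Fin κ → ℕ) : Fin r → ℕ :=
  fun a => if h : a.1 < κ then l ⟨a.1, h⟩ else 0

/-- the complex matrix `A + i B` -/
noncomputable def cx {n : ℕ} (A B : Mt n) : Matrix (Fin n) (Fin n) ℂ :=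
  A.map (fun t : ℝ => (t : ℂ)) + Complex.I • B.map (fun t : ℝ => (t : ℂ))

/-- `A + i B` lies in `so(n, ℂ)` and in the Borel subalgebra stabilizing the isotropic flag
`span(z_1) ⊂ span(z_1, z_2) ⊂ …`, `z_a = x_a + i y_a`: `(A + i B) z_b = ∑_{a ≤ b} U_{ab} z_a`. -/
def IsBorel {n : ℕ} (x y : Fin (n / 2) → Fin n → ℝ) (A B : Mt n)
    (U : Matrix (Fin (n / 2)) (Fin (n / 2)) ℂ) : Prop :=
  Aᵀ = -A ∧ Bᵀ = -B ∧ (∀ a b, b < a → U a b = 0) ∧ cx A B * Zm x y = Zm x y * U

/-- the infinitesimal action of `A ∈ so(n)` by conjugation -/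
noncomputable def act {n : ℕ} (A : Mt n) (H : Mt n → ℂ) (P : Mt n) : ℂ :=
  fderiv ℝ H P (P * A - A * P)

/-- `H` (a function of a real matrix, restricted to the Grassmannian) is a highest weight vector of
weight `w` for the infinitesimal action of `so(n, ℂ)` by conjugation, with respect to the Borel
subalgebra of a frame: `X · H = (∑_a w_a U_{aa}) H` on the Grassmannian. -/
def IsHW {n : ℕ} (k : ℕ) (x y : Fin (n / 2) → Fin n → ℝ) (w : Fin (n / 2) → ℕ)
    (H : Mt n → ℂ) : Prop :=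
  ∀ (A B : Mt n) (U : Matrix (Fin (n / 2)) (Fin (n / 2)) ℂ), IsBorel x y A B U →
    ∀ P ∈ Gr n k, act A H P + Complex.I * act B H P = (∑ a, (w a : ℂ) * U a a) * H P

/-- all highest weight vectors of weight `λ` (for all orthonormal frames, i.e. all
`O(n)`-translates of highest weight vectors) -/
def HWV (n k : ℕ) (l : Fin (kap n k) → ℕ) : Set (SmT n k) :=
  {h | ∃ (H : Mt n → ℂ) (hH : Smooth H) (x y : Fin (n / 2) → Fin n → ℝ),
    IsFrame x y ∧ IsHW k x y (ex (n / 2) l) H ∧ h = res k H hH}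

/-- `h` lies in the `λ`-isotypic component of `C^∞(Gr)` under `O(n)`: the linear span of all
highest weight vectors of weight `λ`. -/
def InIso {n k : ℕ} (l : Fin (kap n k) → ℕ) (h : SmT n k) : Prop :=
  h ∈ Submodule.span ℂ (HWV n k l)

/-- The Fourier support: `f_λ ≠ 0`, i.e. `f` does not vanish on the `λ`-isotypic component. -/
def FSupp {n k : ℕ} (T : SmT n k →ₗ[ℂ] ℂ) : Set (Fin (kap n k) → ℕ) :=
  {l | l ∈ Lam (kap n k) ∧ ∃ h : SmT n k, InIso l h ∧ T h ≠ 0}

/-- the number of the sequences `λ` in `A` with `|λ| ≤ 2m` -/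
noncomputable def cnt {κ : ℕ} (A : Set (Fin κ → ℕ)) (m : ℕ) : ℕ :=
  Nat.card {l | l ∈ A ∧ ∑ a, l a ≤ 2 * m}

/-- For every nonzero generalized function `T` on `Gr_k(ℝⁿ)`, `1 ≤ k ≤ n - 1`, with finite support,
`liminf_m |{λ ∈ Supp T^ : |λ| ≤ 2m}| / |{λ ∈ Λ_κ : |λ| ≤ 2m}| > 0`. -/
theorem result (n k : ℕ) (hk : 1 ≤ k) (hkn : k < n) (T : SmT n k →ₗ[ℂ] ℂ) (hT : IsCts T)
    (hT0 : T ≠ 0) (S : Set (Gr n k)) (hS : S.Finite) (hsupp : SuppIn T S) :
    0 < liminf (fun m : ℕ => (cnt (FSupp T) m : ℝ) / (cnt (Lam (kap n k)) m : ℝ)) atTop := by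
  have key := Pool.Agent.R161.GR.main_of
    (Pool.Agent.R246.BX.s_box
      (Pool.Agent.R619.GR.s_ord Pool.Agent.R560.GR.s_van Pool.Agent.R748.GR.s_cut
        Pool.Agent.R748.GR.s_tay)
      (Pool.Agent.R619.GR.s_hom Pool.Agent.R560.GR.s_van))
    Pool.Agent.R193.GR.s_ext Pool.Agent.R198.GR.s_hw Pool.Agent.R246.GF.s_dens
    n k hk hkn T hT hT0 S hS hsupp
  have e : FSupp T = Pool.Agent.R161.GR.FSupp (n := n) (k := k) T := by
    have e1 : HWV n k = fun l => {h : Pool.Agent.R161.GR.Sm n k |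
        ∃ (H : Mt n → ℂ) (hH : ContDiff ℝ ∞ H) (x y : Fin (n / 2) → Fin n → ℝ),
        Pool.Agent.R161.GR.IsFrame x y ∧ Pool.Agent.R161.GR.IsHW k x y (ex (n / 2) l) H ∧
        h = Pool.Agent.R161.GR.res k H hH} := by
      funext l
      have hiff : ∀ (x y : Fin (n / 2) → Fin n → ℝ) (w : Fin (n / 2) → ℕ) (H : Mt n → ℂ),
          IsHW k x y w H ↔ Pool.Agent.R161.GR.IsHW k x y w H := by
        intro x y w H
        constructor
        · intro h A B hA hB U hU hAB P hP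
          exact h A B U ⟨hA, hB, hU, hAB⟩ P hP
        · intro h A B U hU P hP
          exact h A B hU.1 hU.2.1 U hU.2.2.1 hU.2.2.2 P hP
      apply Set.ext
      intro h
      constructor
      · rintro ⟨H, hH, x, y, h1, h2, h3⟩
        exact ⟨H, hH, x, y, h1, (hiff _ _ _ _).mp h2, h3⟩
      · rintro ⟨H, hH, x, y, h1, h2, h3⟩
        exact ⟨H, hH, x, y, h1, (hiff _ _ _ _).mpr h2, h3⟩
    apply Set.ext
    intro l
    constructor
    · rintro ⟨h1, h, h2, h3⟩
      refine ⟨h1, h, ?_, h3⟩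
      unfold InIso at h2
      rw [e1] at h2
      exact h2
    · rintro ⟨h1, h, h2, h3⟩
      refine ⟨h1, h, ?_, h3⟩
      unfold InIso
      rw [e1]
      exact h2
  rw [e]
  exact key

end Pool.Agent.Results.MP_57d9fd_an.FourierSupport
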